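import Pool.Agent.Lib.MP_776dcc_nt.Cnt2

/-!
# MP_776dcc_nt: integral points on the curves `C_k`, uniformly in `k`: the factorisation of `x` is balanced
-/

set_option autoImplicit false

namespace Pool.Agent.Results.MP_776dcc_nt.BalancedGcd

open Pool.Agent.Lib.MP_776dcc_nt

/-- Let `(x, y)`, `x ≥ 1`, `y ≥ 0`, be an integral point on `C_k : y² = 8 x^k + 4 k x² - 4 k x + 1`, `k ≥ 3`, and
`N = (y + 1) / 2` (for a tuple of `n - k` ones and `k` copies of `x` this is the sum of the entries). Then `x` is the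
product of `gcd(x, N)` and `gcd(x, N - 1)`. For every `δ > 0` there is a `C` such that for ALL `k ≥ 3`:
(1) if `x ≥ k^C` then `x^(1/4 - δ) ≤ gcd(x, N) ≤ x^(3/4 + δ)`;
(2) if `x ≥ k^(C k)` then `x^(1/2 - δ) ≤ gcd(x, N) ≤ x^(1/2 + δ)`;
(3) if `x` has a prime-power divisor `q ≥ x^(3/4 + δ)` (e.g. if `x` is a prime power) then `x ≤ k^C`;
(4) if `x` has a prime-power divisor `q ≥ x^(1/2 + δ)` then `x ≤ k^(C k)`.
(5) The number of the `n ≤ T` such that some tuple `X` of `n` positive integers with `σ₂(X) = σ_n(X)` has exactly two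
distinct entries and an entry `x` with a prime-power divisor `q ≥ x^(3/4 + δ)` is at most `A (log T)^A`. -/
theorem result :
    (∀ k x y : ℕ, 3 ≤ k → 1 ≤ x → y ^ 2 + 4 * k * x = 8 * x ^ k + 4 * k * x ^ 2 + 1 →
      Nat.gcd x ((y + 1) / 2) * Nat.gcd x ((y + 1) / 2 - 1) = x) ∧
    (∀ δ : ℝ, 0 < δ → ∃ C : ℕ, ∀ k x y : ℕ, 3 ≤ k → 1 ≤ x →
      y ^ 2 + 4 * k * x = 8 * x ^ k + 4 * k * x ^ 2 + 1 →
      (k ^ C ≤ x → (x : ℝ) ^ (1 / 4 - δ) ≤ Nat.gcd x ((y + 1) / 2) ∧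
        (Nat.gcd x ((y + 1) / 2) : ℝ) ≤ (x : ℝ) ^ (3 / 4 + δ)) ∧
      (k ^ (C * k) ≤ x → (x : ℝ) ^ (1 / 2 - δ) ≤ Nat.gcd x ((y + 1) / 2) ∧
        (Nat.gcd x ((y + 1) / 2) : ℝ) ≤ (x : ℝ) ^ (1 / 2 + δ)) ∧
      (∀ q, IsPrimePow q → q ∣ x → (x : ℝ) ^ (3 / 4 + δ) ≤ q → x ≤ k ^ C) ∧
      (∀ q, IsPrimePow q → q ∣ x → (x : ℝ) ^ (1 / 2 + δ) ≤ q → x ≤ k ^ (C * k))) ∧
    (∀ δ : ℝ, 0 < δ → ∃ A : ℕ, ∀ T : ℕ, 3 ≤ T →
      (Nat.card {n : ℕ // n ≤ T ∧ ∃ X : Multiset ℕ,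
        (Multiset.card X = n ∧ 0 ∉ X ∧ X.esymm 2 = X.prod) ∧ X.toFinset.card = 2 ∧
        ∃ x ∈ X, ∃ q, IsPrimePow q ∧ q ∣ x ∧ (x : ℝ) ^ (3 / 4 + δ) ≤ q} : ℝ) ≤
          A * (Real.log T) ^ A) := by
  refine ⟨fun k x y hk hx h => (gcd_split (by omega) hx (curve_eq hx h)).2, ?_,
    fun δ hδ => count hδ⟩
  intro δ hδ
  obtain ⟨C₁, h₁⟩ := balanced_all hδ
  obtain ⟨C₂, h₂⟩ := balanced_half hδ
  obtain ⟨C₃, h₃⟩ := ppow_bound hδ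
  obtain ⟨C₄, h₄⟩ := ppow_half hδ
  refine ⟨C₁ + C₂ + C₃ + C₄, fun k x y hk hx h => ?_⟩
  have hk1 : 1 ≤ k := by omega
  have hN := curve_eq hx h
  refine ⟨fun hkx => h₁ k x _ hk ?_ hN, fun hkx => h₂ k x _ hk ?_ hN,
    fun q hq hqx hqs => (h₃ k x _ q hk hx hN hq hqx hqs).trans ?_,
    fun q hq hqx hqs => (h₄ k x _ q hk hx hN hq hqx hqs).trans ?_⟩
  · exact (Nat.pow_le_pow_right hk1 (by omega)).trans hkx
  · exact (Nat.pow_le_pow_right hk1 (Nat.mul_le_mul_right k (by omega))).trans hkx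
  · exact Nat.pow_le_pow_right hk1 (by omega)
  · exact Nat.pow_le_pow_right hk1 (Nat.mul_le_mul_right k (by omega))

end Pool.Agent.Results.MP_776dcc_nt.BalancedGcd
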