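import Pool.Agent.Lib.MP_776dcc_nt.Tup

/-!
# MP_776dcc_nt: tuples with `σ₂ = σ_n` and two distinct entries, many copies of a number with a large smooth part
-/

set_option autoImplicit false

namespace Pool.Agent.Results.MP_776dcc_nt.SmoothPart

/-- (1) Let `P` be a finite set (of primes), `D` a natural number and `ε > 0`. On ALL curves
`C_k : y² = 8 x^k + 4 k x² - 4 k x + 1`, `k ≥ 3`, TOGETHER there are only finitely many points `(x, y)` with natural
numbers `x ≥ 2`, `y` such that `x^k = d s²` with `d ≤ D` (no condition if `k` is even; for odd `k`: the square-free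
part of `x` is at most `D`) and `x^k y²` has a divisor `μ ≥ x^(4 + ε k)` all of whose prime factors are in `P`.
(2) For every finite set `P` of primes there are only finitely many `n` such that some tuple `X` of `n` positive
integers with `σ₂(X) = σ_n(X)` has exactly two distinct entries, at least five entries greater than `1`, and no entry
with a prime factor outside `P`. -/
theorem result :
    (∀ (P : Finset ℕ) (D : ℕ) (ε : ℝ), 0 < ε →
      {t : ℕ × ℕ × ℕ | 3 ≤ t.1 ∧ 2 ≤ t.2.1 ∧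
        t.2.2 ^ 2 + 4 * t.1 * t.2.1 = 8 * t.2.1 ^ t.1 + 4 * t.1 * t.2.1 ^ 2 + 1 ∧
        (∃ d s, d ≤ D ∧ t.2.1 ^ t.1 = d * s ^ 2) ∧
        ∃ μ, μ ∣ t.2.1 ^ t.1 * t.2.2 ^ 2 ∧ (∀ p, p.Prime → p ∣ μ → p ∈ P) ∧
          (t.2.1 : ℝ) ^ (4 + ε * t.1) ≤ μ}.Finite) ∧
    ∀ P : Finset ℕ,
      {n : ℕ | ∃ X : Multiset ℕ, (Multiset.card X = n ∧ 0 ∉ X ∧ X.esymm 2 = X.prod) ∧
        X.toFinset.card = 2 ∧ 5 ≤ Multiset.card (X.filter fun x => 1 < x) ∧
        ∀ x ∈ X, ∀ p, p.Prime → p ∣ x → p ∈ P}.Finite :=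
  ⟨fun P D ε hε => Pool.Agent.Lib.MP_776dcc_nt.spart_finite P D ε hε,
    fun P => Pool.Agent.Lib.MP_776dcc_nt.smooth_finite P⟩

end Pool.Agent.Results.MP_776dcc_nt.SmoothPart
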